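import Pool.Agent.H67.Pl.InvC

/-!
# Oscillatory integrals for the module `fields`
-/

open MeasureTheory
open scoped ComplexConjugate

namespace Pool.Agent.H67.Pl.Osc69

/-! ### The kernel in the radial variable -/

theorem osc_norm (x : ℝ) : ‖Complex.exp ((x : ℂ) * Complex.I)‖ = 1 :=
  Complex.norm_exp_ofReal_mul_I x

theorem osc_int (a b k : ℝ) : ‖∫ x in a..b, Complex.exp ((k * x : ℝ) * Complex.I)‖ ≤ |b - a| := by
  have h := intervalIntegral.norm_integral_le_of_norm_le_const (a := a) (b := b) (C := 1)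
    (f := fun x => Complex.exp ((k * x : ℝ) * Complex.I)) (fun x _ => (osc_norm _).le)
  rwa [one_mul] at h

theorem osc_int' (a b k : ℝ) (hk : k ≠ 0) :
    ‖∫ x in a..b, Complex.exp ((k * x : ℝ) * Complex.I)‖ ≤ 2 / |k| := by
  have hc : (k * Complex.I : ℂ) ≠ 0 := by simp [hk]
  have e : ∀ x : ℝ, Complex.exp ((k * x : ℝ) * Complex.I) =
      Complex.exp ((k * Complex.I) * x) := by
    intro x; congr 1; push_cast; ring
  simp_rw [e]
  rw [integral_exp_mul_complex hc, norm_div, norm_mul, Complex.norm_I, mul_one, Complex.norm_real,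
    Real.norm_eq_abs]
  gcongr
  refine (norm_sub_le _ _).trans ?_
  rw [← e, ← e, osc_norm, osc_norm]
  norm_num

theorem continuous_osc (k : ℝ) : Continuous (fun x : ℝ => Complex.exp ((k * x : ℝ) * Complex.I)) := by
  fun_prop

theorem measurable_qk (η : ℝ) : Measurable (qk η) := by
  unfold qk
  exact Measurable.ite (measurableSet_lt measurable_id measurable_const) measurable_const
    measurable_const

theorem abs_qk {η : ℝ} (hη : 0 < η) (ρ : ℝ) : |qk η ρ| = 1 / η := by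
  unfold qk
  split_ifs
  · rw [abs_neg, abs_of_pos (by positivity)]
  · rw [abs_of_pos (by positivity)]

/-- the integral against `qk` as a difference of two integrals -/
theorem qk_split {η : ℝ} (hη : 0 < η) (F : ℝ → ℂ) (hF : Continuous F) :
    ∫ ρ in (0 : ℝ)..η, (qk η ρ : ℂ) * F ρ =
      ((1 / η : ℝ) : ℂ) * ((∫ ρ in (η / 2)..η, F ρ) - ∫ ρ in (0 : ℝ)..(η / 2), F ρ) := by
  have hm : Measurable (fun ρ => (qk η ρ : ℂ) * F ρ) :=
    (Complex.measurable_ofReal.comp (measurable_qk η)).mul hF.measurable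
  have h1 : ∫ ρ in (0 : ℝ)..(η / 2), (qk η ρ : ℂ) * F ρ =
      ∫ ρ in (0 : ℝ)..(η / 2), -(((1 / η : ℝ) : ℂ) * F ρ) := by
    refine intervalIntegral.integral_congr_ae ?_
    have : ∀ᵐ ρ : ℝ, ρ ≠ η / 2 := by simp [ae_iff, measure_singleton]
    filter_upwards [this] with ρ hρ hmem
    rw [Set.uIoc_of_le (by positivity)] at hmem
    have : ρ < η / 2 := lt_of_le_of_ne hmem.2 hρ
    simp only [qk, if_pos this]
    push_cast; ring
  have h2 : ∫ ρ in (η / 2)..η, (qk η ρ : ℂ) * F ρ =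
      ∫ ρ in (η / 2)..η, ((1 / η : ℝ) : ℂ) * F ρ := by
    refine intervalIntegral.integral_congr ?_
    intro ρ hρ
    rw [Set.uIcc_of_le (by linarith)] at hρ
    have : ¬ ρ < η / 2 := not_lt.mpr hρ.1
    simp only [qk, if_neg this]
  have hi : ∀ a b : ℝ, IntervalIntegrable (fun ρ => (qk η ρ : ℂ) * F ρ) volume a b := by
    intro a b
    have h := (hF.intervalIntegrable (μ := volume) a b).norm.const_mul (1 / η)
    refine h.mono_fun hm.aestronglyMeasurable ?_
    filter_upwards with ρ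
    rw [norm_mul, Complex.norm_real, Real.norm_eq_abs, abs_qk hη, norm_mul, norm_norm,
      Real.norm_of_nonneg (by positivity)]
  rw [← intervalIntegral.integral_add_adjacent_intervals (hi 0 (η / 2)) (hi (η / 2) η), h1, h2,
    intervalIntegral.integral_neg, intervalIntegral.integral_const_mul,
    intervalIntegral.integral_const_mul]
  ring

theorem osc_exp_sub (a b : ℝ) :
    ‖Complex.exp ((a : ℂ) * Complex.I) - Complex.exp ((b : ℂ) * Complex.I)‖ ≤ |a - b| := by
  have h : Complex.exp ((a : ℂ) * Complex.I) - Complex.exp ((b : ℂ) * Complex.I) =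
      Complex.exp ((b : ℂ) * Complex.I) * (Complex.exp (Complex.I * ((a - b : ℝ) : ℂ)) - 1) := by
    rw [mul_sub, ← Complex.exp_add, mul_one]
    congr 2
    push_cast; ring
  rw [h, norm_mul, osc_norm, one_mul]
  simpa using (Real.norm_exp_I_mul_ofReal_sub_one_le (x := a - b))

theorem osc_q {η : ℝ} (hη : 0 < η) (k : ℝ) :
    ‖∫ ρ in (0 : ℝ)..η, (qk η ρ : ℂ) * Complex.exp ((k * ρ : ℝ) * Complex.I)‖ ≤ |k| * η := by
  rw [qk_split hη _ (continuous_osc k)]
  have e : ∫ ρ in (η / 2)..η, Complex.exp ((k * ρ : ℝ) * Complex.I) =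
      ∫ ρ in (0 : ℝ)..(η / 2), Complex.exp ((k * (ρ + η / 2) : ℝ) * Complex.I) := by
    rw [intervalIntegral.integral_comp_add_right
      (fun ρ => Complex.exp ((k * ρ : ℝ) * Complex.I)) (η / 2)]
    congr 1 <;> ring
  rw [e, ← intervalIntegral.integral_sub]
  · have h := intervalIntegral.norm_integral_le_of_norm_le_const (a := (0 : ℝ)) (b := η / 2)
      (C := |k| * (η / 2)) (f := fun ρ => Complex.exp ((k * (ρ + η / 2) : ℝ) * Complex.I) -
        Complex.exp ((k * ρ : ℝ) * Complex.I)) (fun ρ _ => by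
        refine (osc_exp_sub _ _).trans (le_of_eq ?_)
        rw [← mul_sub, add_sub_cancel_left, abs_mul, abs_of_pos (by positivity : 0 < η / 2)])
    rw [norm_mul, Complex.norm_real, Real.norm_of_nonneg (by positivity)]
    calc 1 / η * _ ≤ 1 / η * (|k| * (η / 2) * |η / 2 - 0|) := by gcongr
      _ = |k| * η / 4 := by
        rw [sub_zero, abs_of_pos (by positivity : 0 < η / 2)]
        field_simp
        norm_num
      _ ≤ |k| * η := by
        have : 0 ≤ |k| * η := by positivity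
        linarith
  · exact (by fun_prop : Continuous fun ρ : ℝ =>
      Complex.exp ((k * (ρ + η / 2) : ℝ) * Complex.I)).intervalIntegrable _ _
  · exact (continuous_osc k).intervalIntegrable _ _

theorem osc_q' {η : ℝ} (hη : 0 < η) (k : ℝ) (hk : k ≠ 0) :
    ‖∫ ρ in (0 : ℝ)..η, (qk η ρ : ℂ) * Complex.exp ((k * ρ : ℝ) * Complex.I)‖ ≤
      4 / (|k| * η) := by
  rw [qk_split hη _ (continuous_osc k), norm_mul, Complex.norm_real,
    Real.norm_of_nonneg (by positivity)]
  have hk' : 0 < |k| := abs_pos.mpr hk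
  calc 1 / η * _ ≤ 1 / η * (2 / |k| + 2 / |k|) := by
        gcongr
        exact (norm_sub_le _ _).trans (add_le_add (osc_int' _ _ _ hk) (osc_int' _ _ _ hk))
    _ = 4 / (|k| * η) := by field_simp; norm_num

/-! ### Squares -/

theorem osc_sq (p ζ : ℂ) {w : ℝ} (hw : 0 < w) :
    ‖∫ x in sq p w, Complex.exp ((ip ζ x : ℝ) * Complex.I)‖ ≤ w ^ 2 := by
  have h := norm_setIntegral_le_of_norm_le_const (μ := (volume : Measure ℂ)) (s := sq p w)
    (f := fun x => Complex.exp ((ip ζ x : ℝ) * Complex.I)) (C := 1)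
    (by rw [InvC69.volume_sq p hw.le]; exact ENNReal.ofReal_lt_top)
    (fun y _ => (osc_norm _).le)
  rw [one_mul, Measure.real, InvC69.volume_sq p hw.le, ENNReal.toReal_ofReal (by positivity)] at h
  exact h

theorem osc_sq_eq (p ζ : ℂ) {w : ℝ} (hw : 0 < w) :
    ∫ x in sq p w, Complex.exp ((ip ζ x : ℝ) * Complex.I) =
      (∫ s in p.re..(p.re + w), Complex.exp ((ζ.re * s : ℝ) * Complex.I)) *
        ∫ s in p.im..(p.im + w), Complex.exp ((ζ.im * s : ℝ) * Complex.I) := by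
  have hs : sq p w = Complex.measurableEquivRealProd ⁻¹'
      (Set.Ico p.re (p.re + w) ×ˢ Set.Ico p.im (p.im + w)) := by
    ext x
    simp only [sq, Set.mem_ofPred_eq, Set.mem_preimage, Complex.measurableEquivRealProd_apply,
      Set.mem_prod, Set.mem_Ico]
    tauto
  have h1 : ∫ x in sq p w, Complex.exp ((ip ζ x : ℝ) * Complex.I) =
      ∫ z in Set.Ico p.re (p.re + w) ×ˢ Set.Ico p.im (p.im + w),
        Complex.exp ((ζ.re * z.1 : ℝ) * Complex.I) * Complex.exp ((ζ.im * z.2 : ℝ) * Complex.I)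
          ∂((volume : Measure ℝ).prod volume) := by
    rw [hs, ← Measure.volume_eq_prod,
      ← (Complex.volume_preserving_equiv_real_prod).setIntegral_preimage_emb
        Complex.measurableEquivRealProd.measurableEmbedding]
    refine setIntegral_congr_fun ?_ ?_
    · rw [← hs]; exact InvC69.measurableSet_sq' p w
    · intro x _
      simp only [Complex.measurableEquivRealProd_apply]
      rw [← Complex.exp_add]
      congr 1
      simp only [ip]
      push_cast
      ring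
  rw [h1, ← Measure.prod_restrict, integral_prod_mul
      (fun s : ℝ => Complex.exp ((ζ.re * s : ℝ) * Complex.I))
      (fun s : ℝ => Complex.exp ((ζ.im * s : ℝ) * Complex.I)),
    intervalIntegral.integral_of_le (by linarith), intervalIntegral.integral_of_le (by linarith),
    integral_Ico_eq_integral_Ioc, integral_Ico_eq_integral_Ioc]

theorem osc_sq' (p ζ : ℂ) {w : ℝ} (hw : 0 < w) (hζ : ζ ≠ 0) :
    ‖∫ x in sq p w, Complex.exp ((ip ζ x : ℝ) * Complex.I)‖ ≤ 4 * w / ‖ζ‖ := by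
  have hn : 0 < ‖ζ‖ := norm_pos_iff.mpr hζ
  rw [osc_sq_eq p ζ hw, norm_mul]
  have a1 := osc_int p.re (p.re + w) ζ.re
  have a2 := osc_int p.im (p.im + w) ζ.im
  rw [add_sub_cancel_left, abs_of_pos hw] at a1 a2
  have hle := Complex.norm_le_abs_re_add_abs_im ζ
  by_cases hc : ‖ζ‖ / 2 ≤ |ζ.re|
  · have hre : ζ.re ≠ 0 := by
      intro h; rw [h, abs_zero] at hc; linarith
    have b1 := osc_int' p.re (p.re + w) ζ.re hre
    calc _ ≤ 2 / |ζ.re| * w := by gcongr
      _ ≤ 2 / (‖ζ‖ / 2) * w := by gcongr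
      _ = 4 * w / ‖ζ‖ := by field_simp; norm_num
  · push Not at hc
    have hc' : ‖ζ‖ / 2 ≤ |ζ.im| := by linarith
    have him : ζ.im ≠ 0 := by
      intro h; rw [h, abs_zero] at hc'; linarith
    have b1 := osc_int' p.im (p.im + w) ζ.im him
    calc _ ≤ w * (2 / |ζ.im|) := by gcongr
      _ ≤ w * (2 / (‖ζ‖ / 2)) := by gcongr
      _ = 4 * w / ‖ζ‖ := by field_simp; norm_num

/-! ### Arcs -/

theorem cu_re (φ : ℝ) : (cu φ).re = Real.cos φ := Complex.exp_ofReal_mul_I_re φ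
theorem cu_im (φ : ℝ) : (cu φ).im = Real.sin φ := Complex.exp_ofReal_mul_I_im φ

theorem ip_cu (χ : ℂ) (φ : ℝ) : ip χ (cu φ) = χ.re * Real.cos φ + χ.im * Real.sin φ := by
  rw [ip, cu_re, cu_im]

theorem ip_I_cu (χ : ℂ) (φ : ℝ) :
    ip χ (Complex.I * cu φ) = χ.im * Real.cos φ - χ.re * Real.sin φ := by
  simp only [ip, Complex.mul_re, Complex.mul_im, Complex.I_re, Complex.I_im, cu_re, cu_im]
  ring

theorem ip_add_cu (χ : ℂ) (φ δ : ℝ) : ip χ (cu (φ + δ)) =
    ip χ (cu φ) * Real.cos δ + ip χ (Complex.I * cu φ) * Real.sin δ := by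
  rw [ip_cu, ip_cu, ip_I_cu, Real.cos_add, Real.sin_add]; ring

theorem ip_I_add_cu (χ : ℂ) (φ δ : ℝ) : ip χ (Complex.I * cu (φ + δ)) =
    ip χ (Complex.I * cu φ) * Real.cos δ - ip χ (cu φ) * Real.sin δ := by
  rw [ip_cu, ip_I_cu, ip_I_cu, Real.cos_add, Real.sin_add]; ring

theorem ip_ofReal_mul (χ : ℂ) (r : ℝ) (z : ℂ) : ip χ ((r : ℂ) * z) = r * ip χ z := by
  simp only [ip, Complex.re_ofReal_mul, Complex.im_ofReal_mul]; ring

theorem hasDerivAt_ip_cu (χ : ℂ) (φ : ℝ) :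
    HasDerivAt (fun φ => ip χ (cu φ)) (ip χ (Complex.I * cu φ)) φ := by
  have h := ((Real.hasDerivAt_cos φ).const_mul χ.re).add ((Real.hasDerivAt_sin φ).const_mul χ.im)
  have e : (fun φ => ip χ (cu φ)) = fun φ => χ.re * Real.cos φ + χ.im * Real.sin φ := by
    ext φ; exact ip_cu χ φ
  rw [e, ip_I_cu]
  exact h.congr_deriv (by ring)

theorem hasDerivAt_ip_I_cu (χ : ℂ) (φ : ℝ) :
    HasDerivAt (fun φ => ip χ (Complex.I * cu φ)) (-ip χ (cu φ)) φ := by
  have h := ((Real.hasDerivAt_cos φ).const_mul χ.im).sub ((Real.hasDerivAt_sin φ).const_mul χ.re)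
  have e : (fun φ => ip χ (Complex.I * cu φ)) =
      fun φ => χ.im * Real.cos φ - χ.re * Real.sin φ := by
    ext φ; exact ip_I_cu χ φ
  rw [e, ip_cu]
  exact h.congr_deriv (by ring)

theorem continuous_ip_cu (χ : ℂ) : Continuous (fun φ => ip χ (cu φ)) :=
  continuous_iff_continuousAt.mpr fun φ => (hasDerivAt_ip_cu χ φ).continuousAt

theorem continuous_ip_I_cu (χ : ℂ) : Continuous (fun φ => ip χ (Complex.I * cu φ)) :=
  continuous_iff_continuousAt.mpr fun φ => (hasDerivAt_ip_I_cu χ φ).continuousAt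

/-- integration by parts on an arc -/
theorem arc_phase (χ : ℂ) (lam a b t k : ℝ) (hab : a ≤ b) (hlam : 1 ≤ lam) (ht : 0 < t)
    (h1 : ∀ φ ∈ Set.Icc a b, t ≤ |ip χ (Complex.I * cu φ)|)
    (h2 : ∀ φ ∈ Set.Icc a b, |ip χ (cu φ)| ≤ k) :
    ‖∫ φ in a..b, Complex.exp ((lam * ip χ (cu φ) : ℝ) * Complex.I)‖ ≤
      2 / t + (b - a) * (k / t ^ 2) := by
  have hlam0 : 0 < lam := by linarith
  set T : ℝ → ℝ := fun φ => ip χ (Complex.I * cu φ) with hT
  set k' : ℝ → ℝ := fun φ => ip χ (cu φ) with hk'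
  have hTne : ∀ φ ∈ Set.uIcc a b, T φ ≠ 0 := by
    intro φ hφ h
    rw [Set.uIcc_of_le hab] at hφ
    have := h1 φ hφ
    rw [show ip χ (Complex.I * cu φ) = T φ from rfl, h, abs_zero] at this
    linarith
  set E : ℝ → ℂ := fun φ => Complex.exp ((lam * k' φ : ℝ) * Complex.I) with hE
  set G : ℝ → ℂ := fun φ => E φ / (lam * T φ * Complex.I) with hG
  have hder : ∀ φ ∈ Set.uIcc a b, HasDerivAt G
      (E φ + E φ * (k' φ / (lam * T φ ^ 2 * Complex.I))) φ := by
    intro φ hφ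
    have d1 : HasDerivAt (fun φ => ((lam * k' φ : ℝ) : ℂ) * Complex.I)
        (((lam * T φ : ℝ) : ℂ) * Complex.I) φ :=
      (((hasDerivAt_ip_cu χ φ).const_mul lam).ofReal_comp).mul_const _
    have d2 : HasDerivAt E (E φ * (((lam * T φ : ℝ) : ℂ) * Complex.I)) φ := d1.cexp
    have d3 : HasDerivAt (fun φ => (lam : ℂ) * (T φ : ℂ) * Complex.I)
        ((lam : ℂ) * ((-k' φ : ℝ) : ℂ) * Complex.I) φ :=
      ((hasDerivAt_ip_I_cu χ φ).ofReal_comp.const_mul (lam : ℂ)).mul_const _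
    have hne : (lam : ℂ) * (T φ : ℂ) * Complex.I ≠ 0 := by
      simp [hTne φ hφ, hlam0.ne']
    have d4 := d2.div d3 hne
    have hT0 : (T φ : ℂ) ≠ 0 := by exact_mod_cast hTne φ hφ
    have hl0 : (lam : ℂ) ≠ 0 := by exact_mod_cast hlam0.ne'
    have hI : Complex.I ≠ 0 := Complex.I_ne_zero
    refine d4.congr_deriv ?_
    push_cast
    field_simp
    ring_nf
  have hTc : Continuous T := continuous_ip_I_cu χ
  have hkc : Continuous k' := continuous_ip_cu χ
  have hEc : Continuous E := by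
    simp only [hE]
    exact Complex.continuous_exp.comp ((Complex.continuous_ofReal.comp
      (continuous_const.mul hkc)).mul continuous_const)
  have hc2 : ContinuousOn (fun φ => E φ * (k' φ / (lam * T φ ^ 2 * Complex.I)))
      (Set.uIcc a b) := by
    refine hEc.continuousOn.mul (ContinuousOn.div ?_ ?_ ?_)
    · exact (Complex.continuous_ofReal.comp hkc).continuousOn
    · exact ((continuous_const.mul ((Complex.continuous_ofReal.comp hTc).pow 2)).mul
        continuous_const).continuousOn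
    · intro φ hφ
      simp [hTne φ hφ, hlam0.ne']
  have hint1 : IntervalIntegrable E volume a b := hEc.intervalIntegrable _ _
  have hint2 : IntervalIntegrable (fun φ => E φ * (k' φ / (lam * T φ ^ 2 * Complex.I)))
      volume a b := hc2.intervalIntegrable
  have hF := intervalIntegral.integral_eq_sub_of_hasDerivAt hder (hint1.add hint2)
  rw [intervalIntegral.integral_add hint1 hint2] at hF
  have hmain : ∫ φ in a..b, E φ = G b - G a -
      ∫ φ in a..b, E φ * (k' φ / (lam * T φ ^ 2 * Complex.I)) := by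
    rw [← hF]; ring
  have hEn : ∀ φ, ‖E φ‖ = 1 := fun φ => osc_norm _
  have hGn : ∀ φ ∈ Set.Icc a b, ‖G φ‖ ≤ 1 / t := by
    intro φ hφ
    simp only [hG, norm_div, hEn, norm_mul, Complex.norm_real, Complex.norm_I, mul_one,
      Real.norm_eq_abs, abs_of_pos hlam0]
    have := h1 φ hφ
    gcongr
    calc t ≤ 1 * |T φ| := by rw [one_mul]; exact this
      _ ≤ lam * |T φ| := by gcongr
  show ‖∫ φ in a..b, E φ‖ ≤ _
  rw [hmain]
  have hk0 : 0 ≤ k := (abs_nonneg _).trans (h2 a ⟨le_refl _, hab⟩)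
  have hI : ‖∫ φ in a..b, E φ * (k' φ / (lam * T φ ^ 2 * Complex.I))‖ ≤
      k / t ^ 2 * |b - a| := by
    refine intervalIntegral.norm_integral_le_of_norm_le_const ?_
    intro φ hφ
    rw [Set.uIoc_of_le hab] at hφ
    have hφ' : φ ∈ Set.Icc a b := ⟨hφ.1.le, hφ.2⟩
    rw [norm_mul, hEn, one_mul, norm_div, norm_mul, norm_mul, norm_pow, Complex.norm_real,
      Complex.norm_real, Complex.norm_real, Complex.norm_I, mul_one, Real.norm_eq_abs,
      Real.norm_eq_abs, Real.norm_eq_abs, abs_of_pos hlam0]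
    have a1 := h1 φ hφ'
    have a2 := h2 φ hφ'
    gcongr
    · calc t ^ 2 ≤ 1 * |T φ| ^ 2 := by rw [one_mul]; gcongr
        _ ≤ lam * |T φ| ^ 2 := by gcongr
  calc _ ≤ ‖G b‖ + ‖G a‖ + ‖∫ φ in a..b, E φ * (k' φ / (lam * T φ ^ 2 * Complex.I))‖ := by
        refine (norm_sub_le _ _).trans ?_
        gcongr
        exact norm_sub_le _ _
    _ ≤ 1 / t + 1 / t + k / t ^ 2 * |b - a| := by
        gcongr
        · exact hGn b ⟨hab, le_refl _⟩
        · exact hGn a ⟨le_refl _, hab⟩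
    _ = 2 / t + (b - a) * (k / t ^ 2) := by
        rw [abs_of_nonneg (by linarith)]; ring

/-- the radial integral at a fixed angle -/
theorem osc_radial {η : ℝ} (χ : ℂ) (φ : ℝ) :
    ∫ ρ in (0 : ℝ)..η, (qk η ρ : ℂ) *
      Complex.exp ((ip χ (((1 + ρ : ℝ) : ℂ) * cu φ) : ℝ) * Complex.I) =
    Complex.exp ((ip χ (cu φ) : ℝ) * Complex.I) * ∫ ρ in (0 : ℝ)..η, (qk η ρ : ℂ) *
      Complex.exp ((ip χ (cu φ) * ρ : ℝ) * Complex.I) := by
  rw [← intervalIntegral.integral_const_mul]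
  refine intervalIntegral.integral_congr fun ρ _ => ?_
  show _ = _
  rw [mul_left_comm, ← Complex.exp_add, ip_ofReal_mul]
  congr 2
  push_cast; ring

/-- exchange of the two integrals of an arc -/
theorem osc_swap {η : ℝ} (hη : 0 < η) (χ : ℂ) (a b : ℝ) (hab : a ≤ b) :
    ∫ φ in a..b, ∫ ρ in (0 : ℝ)..η, (qk η ρ : ℂ) *
      Complex.exp ((ip χ (((1 + ρ : ℝ) : ℂ) * cu φ) : ℝ) * Complex.I) =
    ∫ ρ in (0 : ℝ)..η, (qk η ρ : ℂ) * ∫ φ in a..b,
      Complex.exp (((1 + ρ) * ip χ (cu φ) : ℝ) * Complex.I) := by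
  simp_rw [intervalIntegral.integral_of_le hη.le, intervalIntegral.integral_of_le hab]
  rw [integral_integral_swap]
  · refine integral_congr_ae ?_
    filter_upwards with ρ
    rw [← integral_const_mul]
    refine integral_congr_ae ?_
    filter_upwards with φ
    rw [ip_ofReal_mul]
  · have hm : Measurable (fun z : ℝ × ℝ => (qk η z.2 : ℂ) *
        Complex.exp ((ip χ (((1 + z.2 : ℝ) : ℂ) * cu z.1) : ℝ) * Complex.I)) := by
      refine (Complex.measurable_ofReal.comp ((measurable_qk η).comp measurable_snd)).mul ?_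
      refine Continuous.measurable ?_
      simp_rw [ip_ofReal_mul]
      exact Complex.continuous_exp.comp ((Complex.continuous_ofReal.comp
        ((continuous_const.add continuous_snd).mul
          ((continuous_ip_cu χ).comp continuous_fst))).mul continuous_const)
    refine Integrable.mono' (g := fun _ => 1 / η) (integrable_const _) hm.aestronglyMeasurable ?_
    filter_upwards with z
    simp only [Function.uncurry]
    rw [norm_mul, osc_norm, mul_one, Complex.norm_real, Real.norm_eq_abs, abs_qk hη]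

theorem arc_bound {η : ℝ} (hη : 0 < η) (χ : ℂ) (a b t k : ℝ) (hab : a ≤ b) (ht : 0 < t)
    (h1 : ∀ φ ∈ Set.Icc a b, t ≤ |ip χ (Complex.I * cu φ)|)
    (h2 : ∀ φ ∈ Set.Icc a b, |ip χ (cu φ)| ≤ k) :
    ‖∫ φ in a..b, ∫ ρ in (0 : ℝ)..η, (qk η ρ : ℂ) *
      Complex.exp ((ip χ (((1 + ρ : ℝ) : ℂ) * cu φ) : ℝ) * Complex.I)‖ ≤
      2 / t + (b - a) * (k / t ^ 2) := by
  rw [osc_swap hη χ a b hab]
  have h := intervalIntegral.norm_integral_le_of_norm_le_const (a := (0 : ℝ)) (b := η)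
    (C := 1 / η * (2 / t + (b - a) * (k / t ^ 2)))
    (f := fun ρ => (qk η ρ : ℂ) * ∫ φ in a..b,
      Complex.exp (((1 + ρ) * ip χ (cu φ) : ℝ) * Complex.I)) (fun ρ hρ => by
      rw [Set.uIoc_of_le hη.le] at hρ
      rw [norm_mul, Complex.norm_real, Real.norm_eq_abs, abs_qk hη]
      gcongr
      exact arc_phase χ (1 + ρ) a b t k hab (by linarith [hρ.1]) ht h1 h2)
  refine h.trans (le_of_eq ?_)
  rw [sub_zero, abs_of_pos hη]
  field_simp

/-- The arc lemma. -/
theorem osc_arc (c : ℕ) : ∃ C : ℕ, ∀ (D η w φ₁ : ℝ) (χ : ℂ), 2 ≤ D → 0 < η → 0 < w →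
    w ^ 2 ≤ η / D ^ C → η ≤ 1 / D ^ C →
    w / D ^ c ≤ ‖∫ φ in φ₁..(φ₁ + w), ∫ ρ in (0 : ℝ)..η, (qk η ρ : ℂ) *
      Complex.exp ((ip χ (((1 + ρ : ℝ) : ℂ) * cu φ) : ℝ) * Complex.I)‖ →
    ∀ φ, φ₁ ≤ φ → φ ≤ φ₁ + w → |ip χ (Complex.I * cu φ)| ≤ D ^ C / w ∧
      1 / (D ^ C * η) ≤ |ip χ (cu φ)| ∧ |ip χ (cu φ)| ≤ D ^ C / η := by
  refine ⟨2 * c + 8, ?_⟩
  intro D η w φ₁ χ hD hη hw hw2 hη1 hbig
  have hD0 : 0 < D := by linarith
  have hD1 : 1 ≤ D := by linarith
  set A : ℝ := D ^ c with hA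
  have hA1 : 1 ≤ A := one_le_pow₀ hD1
  have hA0 : 0 < A := by linarith
  have hDC : D ^ (2 * c + 8) = A ^ 2 * D ^ 8 := by rw [hA, ← pow_mul, ← pow_add]; congr 1; ring
  have hD8 : 256 ≤ D ^ 8 := by
    calc (256 : ℝ) = 2 ^ 8 := by norm_num
      _ ≤ D ^ 8 := by gcongr
  have hDA : 256 * A ^ 2 ≤ D ^ (2 * c + 8) := by rw [hDC]; nlinarith [pow_pos hA0 2]
  have hDC0 : 0 < D ^ (2 * c + 8) := by positivity
  have hDC1 : 1 ≤ D ^ (2 * c + 8) := one_le_pow₀ hD1
  -- consequences for the parameters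
  have hη' : 256 * A ^ 2 * η ≤ 1 := by
    rw [le_div_iff₀ hDC0] at hη1
    calc 256 * A ^ 2 * η ≤ D ^ (2 * c + 8) * η := by gcongr
      _ = η * D ^ (2 * c + 8) := by ring
      _ ≤ 1 := hη1
  have hw' : 256 * A ^ 2 * w ^ 2 ≤ η := by
    rw [le_div_iff₀ hDC0] at hw2
    calc 256 * A ^ 2 * w ^ 2 ≤ D ^ (2 * c + 8) * w ^ 2 := by gcongr
      _ = w ^ 2 * D ^ (2 * c + 8) := by ring
      _ ≤ η := hw2
  have hA2 : 1 ≤ A ^ 2 := one_le_pow₀ hA1
  have hηs : η ≤ 1 / 256 := by nlinarith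
  have hw1 : w ^ 2 ≤ 1 / 256 ^ 2 := by nlinarith [sq_nonneg w]
  have hws : w ≤ 1 / 256 := by
    by_contra h
    push Not at h
    nlinarith
  -- the good angle
  obtain ⟨φs, hφs, hG⟩ : ∃ φs ∈ Set.Icc φ₁ (φ₁ + w), 1 / (2 * A) <
      ‖∫ ρ in (0 : ℝ)..η, (qk η ρ : ℂ) *
        Complex.exp ((ip χ (cu φs) * ρ : ℝ) * Complex.I)‖ := by
    by_contra hcon
    push Not at hcon
    have h := intervalIntegral.norm_integral_le_of_norm_le_const (a := φ₁) (b := φ₁ + w)
      (C := 1 / (2 * A)) (f := fun φ => ∫ ρ in (0 : ℝ)..η, (qk η ρ : ℂ) *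
        Complex.exp ((ip χ (((1 + ρ : ℝ) : ℂ) * cu φ) : ℝ) * Complex.I)) (fun φ hφ => by
        rw [Set.uIoc_of_le (by linarith)] at hφ
        rw [osc_radial, norm_mul, osc_norm, one_mul]
        exact hcon φ ⟨hφ.1.le, hφ.2⟩)
    rw [add_sub_cancel_left, abs_of_pos hw] at h
    have h2 := hbig.trans h
    rw [div_le_iff₀ hA0] at h2
    have : 1 / (2 * A) * w * A = w / 2 := by field_simp
    rw [this] at h2
    linarith
  set ks : ℝ := ip χ (cu φs) with hks
  set ts : ℝ := ip χ (Complex.I * cu φs) with hts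
  have hk1 : 1 / (2 * A * η) ≤ |ks| := by
    have h := hG.le.trans (osc_q hη ks)
    rw [div_le_iff₀ (by positivity)] at h ⊢
    linarith
  have hks0 : 0 < |ks| := lt_of_lt_of_le (by positivity) hk1
  have hk2 : |ks| ≤ 8 * A / η := by
    have h := hG.le.trans (osc_q' hη ks (abs_pos.mp hks0))
    rw [div_le_div_iff₀ (by positivity) (by positivity)] at h
    rw [le_div_iff₀ hη]
    linarith
  -- |ks| w is small compared with A / w
  have hkw : |ks| * w ≤ A / (32 * w) := by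
    calc |ks| * w ≤ 8 * A / η * w := by gcongr
      _ ≤ A / (32 * w) := by
        rw [div_mul_eq_mul_div, div_le_div_iff₀ hη (by positivity)]
        have : 8 * A * w * (32 * w) = A * (256 * w ^ 2) := by ring
        rw [this]
        have h3 : 256 * w ^ 2 ≤ η := by nlinarith [sq_nonneg w]
        gcongr
  -- values on the arc
  have hcs : ∀ φ ∈ Set.Icc φ₁ (φ₁ + w), |Real.sin (φ - φs)| ≤ w ∧
      |1 - Real.cos (φ - φs)| ≤ 1 / 16 := by
    intro φ hφ
    have h1 : |φ - φs| ≤ w := by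
      rw [abs_le]; constructor <;> linarith [hφ.1, hφ.2, hφs.1, hφs.2]
    refine ⟨(Real.abs_sin_le_abs).trans h1, ?_⟩
    have h2 := Real.one_sub_sq_div_two_le_cos (x := φ - φs)
    have h3 := Real.cos_le_one (φ - φs)
    have h4 : (φ - φs) ^ 2 ≤ w ^ 2 := by rw [← sq_abs (φ - φs)]; gcongr
    rw [abs_le]
    constructor <;> nlinarith
  have hkφ : ∀ φ ∈ Set.Icc φ₁ (φ₁ + w), |ip χ (cu φ) - ks| ≤ |ks| / 16 + |ts| * w := by
    intro φ hφ
    obtain ⟨h1, h2⟩ := hcs φ hφ
    have e : ip χ (cu φ) - ks = -(ks * (1 - Real.cos (φ - φs))) + ts * Real.sin (φ - φs) := by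
      have := ip_add_cu χ φs (φ - φs)
      rw [show φs + (φ - φs) = φ by ring] at this
      rw [this]; ring
    rw [e]
    calc _ ≤ |-(ks * (1 - Real.cos (φ - φs)))| + |ts * Real.sin (φ - φs)| := abs_add_le _ _
      _ = |ks| * |1 - Real.cos (φ - φs)| + |ts| * |Real.sin (φ - φs)| := by
        rw [abs_neg, abs_mul, abs_mul]
      _ ≤ |ks| * (1 / 16) + |ts| * w := by gcongr
      _ = |ks| / 16 + |ts| * w := by ring
  have htφ : ∀ φ ∈ Set.Icc φ₁ (φ₁ + w), |ip χ (Complex.I * cu φ) - ts| ≤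
      |ts| / 16 + |ks| * w := by
    intro φ hφ
    obtain ⟨h1, h2⟩ := hcs φ hφ
    have e : ip χ (Complex.I * cu φ) - ts =
        -(ts * (1 - Real.cos (φ - φs))) - ks * Real.sin (φ - φs) := by
      have := ip_I_add_cu χ φs (φ - φs)
      rw [show φs + (φ - φs) = φ by ring] at this
      rw [this]; ring
    rw [e]
    calc _ ≤ |-(ts * (1 - Real.cos (φ - φs)))| + |ks * Real.sin (φ - φs)| := abs_sub _ _
      _ = |ts| * |1 - Real.cos (φ - φs)| + |ks| * |Real.sin (φ - φs)| := by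
        rw [abs_neg, abs_mul, abs_mul]
      _ ≤ |ts| * (1 / 16) + |ks| * w := by gcongr
      _ = |ts| / 16 + |ks| * w := by ring
  -- the tangential frequency
  have hts : |ts| ≤ 8 * A / w := by
    by_contra hcon
    push Not at hcon
    have hts0 : 0 < |ts| := lt_trans (by positivity) hcon
    have hkw' : |ks| * w ≤ |ts| / 16 := by
      refine hkw.trans ?_
      have : A / (32 * w) = 8 * A / w / 256 := by field_simp; norm_num
      rw [this]
      linarith
    have hlow : ∀ φ ∈ Set.Icc φ₁ (φ₁ + w), |ts| * (3 / 4) ≤ |ip χ (Complex.I * cu φ)| := by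
      intro φ hφ
      have h := htφ φ hφ
      have h1 : |ts| ≤ |ip χ (Complex.I * cu φ)| + |ip χ (Complex.I * cu φ) - ts| := by
        have := abs_sub_abs_le_abs_sub ts (ip χ (Complex.I * cu φ))
        rw [abs_sub_comm] at this
        linarith
      linarith
    have hup : ∀ φ ∈ Set.Icc φ₁ (φ₁ + w), |ip χ (cu φ)| ≤ 2 * |ks| + |ts| * w := by
      intro φ hφ
      have h := hkφ φ hφ
      have h1 : |ip χ (cu φ)| ≤ |ks| + |ip χ (cu φ) - ks| := by
        have := abs_sub_abs_le_abs_sub (ip χ (cu φ)) ks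
        linarith
      linarith
    have hb := arc_bound hη χ φ₁ (φ₁ + w) (|ts| * (3 / 4)) (2 * |ks| + |ts| * w)
      (by linarith) (by positivity) hlow hup
    have hb2 : 2 / (|ts| * (3 / 4)) + (φ₁ + w - φ₁) * ((2 * |ks| + |ts| * w) /
        (|ts| * (3 / 4)) ^ 2) ≤ 4 / |ts| := by
      rw [add_sub_cancel_left]
      have e1 : 2 / (|ts| * (3 / 4)) + w * ((2 * |ks| + |ts| * w) / (|ts| * (3 / 4)) ^ 2) =
          (8 / 3 * |ts| + 16 / 9 * (2 * (|ks| * w) + |ts| * w ^ 2)) / |ts| ^ 2 := by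
        field_simp
        ring
      rw [e1, div_le_div_iff₀ (by positivity) hts0]
      have e2 : 8 / 3 * |ts| + 16 / 9 * (2 * (|ks| * w) + |ts| * w ^ 2) ≤ 4 * |ts| := by
        nlinarith
      calc _ ≤ 4 * |ts| * |ts| := by gcongr
        _ = 4 * |ts| ^ 2 := by ring
    have hb3 := hbig.trans (hb.trans hb2)
    rw [div_le_div_iff₀ hA0 hts0] at hb3
    rw [div_lt_iff₀ hw] at hcon
    nlinarith
  -- conclusion
  intro φ hφ1 hφ2
  have hφ : φ ∈ Set.Icc φ₁ (φ₁ + w) := ⟨hφ1, hφ2⟩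
  have hA16 : 16 * A ≤ D ^ (2 * c + 8) := by nlinarith
  have htw : |ts| * w ≤ 8 * A := by
    rw [le_div_iff₀ hw] at hts; exact hts
  have hk3 : 8 * A ≤ |ks| / 16 := by
    have : 128 * A ≤ 1 / (2 * A * η) := by
      rw [le_div_iff₀ (by positivity)]
      nlinarith
    linarith
  refine ⟨?_, ?_, ?_⟩
  · have h := htφ φ hφ
    have h1 : |ip χ (Complex.I * cu φ)| ≤ |ts| + |ip χ (Complex.I * cu φ) - ts| := by
      have := abs_sub_abs_le_abs_sub (ip χ (Complex.I * cu φ)) ts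
      linarith
    have h2 : A / (32 * w) ≤ A / w := by gcongr; linarith
    calc |ip χ (Complex.I * cu φ)| ≤ 2 * (8 * A / w) - 0 := by
          have : A / w ≤ 8 * A / w / 8 := by apply le_of_eq; field_simp
          have h5 : 0 ≤ 8 * A / w := by positivity
          have h6 : 0 ≤ |ts| := abs_nonneg _
          linarith
      _ = 16 * A / w := by ring
      _ ≤ D ^ (2 * c + 8) / w := by gcongr
  · have h := hkφ φ hφ
    have h1 : |ks| ≤ |ip χ (cu φ)| + |ip χ (cu φ) - ks| := by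
      have := abs_sub_abs_le_abs_sub ks (ip χ (cu φ))
      rw [abs_sub_comm] at this
      linarith
    have h2 : |ks| / 2 ≤ |ip χ (cu φ)| := by linarith
    calc 1 / (D ^ (2 * c + 8) * η) ≤ 1 / (4 * A * η) := by gcongr; linarith
      _ = 1 / (2 * A * η) / 2 := by field_simp; norm_num
      _ ≤ |ks| / 2 := by gcongr
      _ ≤ |ip χ (cu φ)| := h2
  · have h := hkφ φ hφ
    have h1 : |ip χ (cu φ)| ≤ |ks| + |ip χ (cu φ) - ks| := by
      have := abs_sub_abs_le_abs_sub (ip χ (cu φ)) ks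
      linarith
    calc |ip χ (cu φ)| ≤ 2 * |ks| := by linarith
      _ ≤ 2 * (8 * A / η) := by gcongr
      _ = 16 * A / η := by ring
      _ ≤ D ^ (2 * c + 8) / η := by gcongr

end Pool.Agent.H67.Pl.Osc69
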